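import Pool.Agent.Helper84.TR.Num
import Pool.Agent.Helper84.TR.Event
import Pool.Agent.Helper84.TR.Fib
import Pool.Agent.Helper84.TR.Mass

set_option autoImplicit false

/-!
MP_120218_co, project RT (R1): the column lemma for abelian groups.  If `X`, `Y` are independent and
`Y` is rarely non-zero then `X` is almost determined by `X + Y`, in the sense that
`H(X | X + Y) ≤ η (H(X) + H(Y))`.
-/

open Finset

namespace Pool.Agent.Helper88.RT

open Pool.Agent.Helper15.BP Pool.Agent.Helper84.TR

variable {Ω Ω' : Type} [Fintype Ω] [Fintype Ω']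

theorem CE_zero_of_supp {α β : Type*} (w : Ω → ℝ) (f : Ω → α) (g : Ω → β)
    (h : ∀ o o', w o ≠ 0 → w o' ≠ 0 → g o = g o' → f o = f o') : CE w f g = 0 := by
  classical
  rw [CE_eq_sum]
  apply sum_eq_zero
  intro o _
  by_cases ho : w o = 0
  · rw [ho, zero_mul]
  · have h1 : pr w g (g o) = pr w (fun o => (f o, g o)) (f o, g o) := by
      unfold pr
      apply sum_congr rfl
      intro x _
      by_cases hx : w x = 0
      · rw [hx, ite_self, ite_self]
      · by_cases hg : g x = g o
        · have e : (fun o => (f o, g o)) x = (f o, g o) := by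
            show (f x, g x) = (f o, g o)
            rw [h x o hx ho hg, hg]
          rw [if_pos hg, if_pos e]
        · rw [if_neg hg, if_neg (fun h2 => hg (congrArg Prod.snd h2))]
    rw [h1, sub_self, mul_zero]

theorem pr_true (w : Ω → ℝ) (J : Ω → Prop) : pr w J True = mass w J := by
  classical
  unfold pr mass
  apply sum_congr rfl
  intro o _
  by_cases h : J o
  · rw [if_pos (eq_true h), if_pos h]
  · rw [if_neg (fun h2 => h (of_eq_true h2)), if_neg h]

/-- conditioning a product on an event of the second factor -/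
theorem cw_second {w : Ω → ℝ} (hw : IsPr w) (w' : Ω' → ℝ) (J : Ω' → Prop) :
    cw (prodW w w') (fun p => J p.2) True = prodW w (cw w' J True) := by
  classical
  funext p
  unfold cw
  rw [pr_snd hw]
  unfold prodW
  by_cases h : J p.2 = True
  · rw [if_pos h]
    simp only
    rw [if_pos h, mul_div_assoc]
  · rw [if_neg h]
    simp only
    rw [if_neg h, mul_zero]

/-- the entropy of `X` given `X + Y` and the event `Y ≠ 0` -/
theorem given_event {G : Type} [AddCommGroup G] {w : Ω → ℝ} {w' : Ω' → ℝ} (hw : IsPr w)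
    (hw' : IsPr w') (X : Ω → G) (Y : Ω' → G) :
    CE (prodW w w') (fun p => X p.1) (fun p => (X p.1 + Y p.2, (Y p.2 ≠ 0))) ≤
      mass w' (fun o => Y o ≠ 0) * Ent w X := by
  classical
  have hp := hw.prod hw'
  have hm := mass_nonneg hw' (fun o => Y o ≠ 0)
  have hE := Ent_nonneg hw X
  have hprT : pr (prodW w w') (fun p => (Y p.2 ≠ 0)) True = mass w' (fun o => Y o ≠ 0) := by
    rw [← pr_true w' (fun o => Y o ≠ 0)]
    exact pr_snd hw (fun o => Y o ≠ 0) True
  rw [CE_fib hp (fun p => X p.1) (fun p => X p.1 + Y p.2) (fun p => (Y p.2 ≠ 0))]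
  have h1 : ∀ a ∈ univ.image (fun p : Ω × Ω' => (Y p.2 ≠ 0)),
      pr (prodW w w') (fun p => (Y p.2 ≠ 0)) a *
        CE (cw (prodW w w') (fun p => (Y p.2 ≠ 0)) a) (fun p => X p.1)
          (fun p => X p.1 + Y p.2) ≤
      if a = True then mass w' (fun o => Y o ≠ 0) * Ent w X else 0 := by
    intro a _
    by_cases ha : a
    · have ha' : a = True := eq_true ha
      rw [if_pos ha', ha', hprT]
      by_cases h0 : mass w' (fun o => Y o ≠ 0) = 0
      · rw [h0, zero_mul, zero_mul]
      · apply mul_le_mul_of_nonneg_left _ hm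
        rw [cw_second hw w' (fun o => Y o ≠ 0)]
        have hw'' : IsPr (cw w' (fun o => Y o ≠ 0) True) := by
          apply cw_isPr hw'
          rw [pr_true]
          exact h0
        refine (CE_le_Ent (hw.prod hw'') _ _).trans (le_of_eq ?_)
        exact Ent_fst hw'' X
    · have ha' : a = False := eq_false ha
      rw [if_neg (fun h => ha (of_eq_true h)), ha']
      apply le_of_eq
      rw [CE_zero_of_supp, mul_zero]
      have hY : ∀ p : Ω × Ω', cw (prodW w w') (fun p => (Y p.2 ≠ 0)) False p ≠ 0 → Y p.2 = 0 := by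
        intro p hp0
        by_contra hJ
        apply hp0
        unfold cw
        simp only
        rw [if_neg]
        intro h
        exact of_eq_false h hJ
      intro p p' hp0 hp0' he
      have e1 := hY p hp0
      have e2 := hY p' hp0'
      rw [e1, e2, add_zero, add_zero] at he
      exact he
  refine le_trans (sum_le_sum h1) ?_
  rw [← sum_filter, sum_const, nsmul_eq_mul]
  have hc : ((univ.image (fun p : Ω × Ω' => (Y p.2 ≠ 0))).filter
      (fun a => a = True)).card ≤ 1 := by
    rw [card_le_one]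
    intro a ha b hb
    rw [(mem_filter.1 ha).2, (mem_filter.1 hb).2]
  have hc' : ((((univ.image (fun p : Ω × Ω' => (Y p.2 ≠ 0))).filter
      (fun a => a = True)).card : ℕ) : ℝ) ≤ 1 := by exact_mod_cast hc
  have h2 : 0 ≤ mass w' (fun o => Y o ≠ 0) * Ent w X := mul_nonneg hm hE
  nlinarith

/-- the decomposition of `H(X | X + Y)` by the event `Y ≠ 0` -/
theorem split_event {G : Type} [AddCommGroup G] {w : Ω → ℝ} {w' : Ω' → ℝ} (hw : IsPr w)
    (hw' : IsPr w') (X : Ω → G) (Y : Ω' → G) :
    CE (prodW w w') (fun p => X p.1) (fun p => X p.1 + Y p.2) ≤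
      CE (prodW w w') (fun p => (Y p.2 ≠ 0)) (fun p => X p.1 + Y p.2) +
        mass w' (fun o => Y o ≠ 0) * Ent w X := by
  have hp := hw.prod hw'
  have h1 : CE (prodW w w') (fun p => X p.1) (fun p => X p.1 + Y p.2) ≤
      CE (prodW w w') (fun p => (X p.1, (Y p.2 ≠ 0))) (fun p => X p.1 + Y p.2) := by
    apply CE_mono hp
    intro o o' _ h
    exact congrArg Prod.fst h
  have h2 := CE_chain (prodW w w') (fun p => X p.1) (fun p => (Y p.2 ≠ 0))
    (fun p => X p.1 + Y p.2)
  have h3 : CE (prodW w w') (fun p => X p.1) (fun p => ((Y p.2 ≠ 0), X p.1 + Y p.2)) =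
      CE (prodW w w') (fun p => X p.1) (fun p => (X p.1 + Y p.2, (Y p.2 ≠ 0))) := by
    apply CE_congr
    · intro o o'
      simp only [Prod.mk.injEq]
      tauto
    · intro o o' _
      exact Iff.rfl
  have h4 := given_event hw hw' X Y
  rw [h2, h3] at h1
  linarith

/-- the event `Y ≠ 0` given `X + Y`, when `X` has a value of large mass -/
theorem event_mode {G : Type} [AddCommGroup G] {w : Ω → ℝ} {w' : Ω' → ℝ} (hw : IsPr w)
    (hw' : IsPr w') (X : Ω → G) (Y : Ω' → G) (x₀ : G) :
    CE (prodW w w') (fun p => (Y p.2 ≠ 0)) (fun p => X p.1 + Y p.2) ≤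
      phi (mass w' (fun o => Y o ≠ 0) * mass w (fun o => X o ≠ x₀)) 1 +
        phi (mass w' (fun o => Y o ≠ 0)) (mass w (fun o => X o ≠ x₀)) := by
  have hp := hw.prod hw'
  have h1 : CE (prodW w w') (fun p => (Y p.2 ≠ 0)) (fun p => X p.1 + Y p.2) ≤
      CE (prodW w w') (fun p => (Y p.2 ≠ 0)) (fun p => (X p.1 + Y p.2 ≠ x₀)) := by
    apply CE_anti hp
    intro o o' h
    rw [h]
  refine h1.trans ?_
  rw [CE_event hp]
  apply add_le_add
  · apply phi_mono (mass_nonneg hp _) _ (mass_nonneg hp _) (mass_le_one hp _)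
    rw [mul_comm, ← mass_prod]
    apply mass_mono hp
    rintro ⟨o, o'⟩ ⟨ha, hb⟩
    simp only [ne_eq, not_not] at ha hb ⊢
    refine ⟨?_, ha⟩
    intro hx
    rw [hx] at hb
    exact ha (by simpa using hb)
  · apply phi_mono (mass_nonneg hp _) _ (mass_nonneg hp _) _
    · refine (mass_mono hp (p' := fun p : Ω × Ω' => Y p.2 ≠ 0) fun o h => h.1).trans ?_
      exact (mass_snd hw (fun o => Y o ≠ 0)).le
    · refine (mass_mono hp (p' := fun p : Ω × Ω' => X p.1 ≠ x₀) ?_).trans ?_
      · rintro ⟨o, o'⟩ ⟨ha, hb⟩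
        simp only [ne_eq, not_not] at ha hb ⊢
        rw [ha, add_zero] at hb
        exact hb
      · exact (mass_fst hw' (fun o => X o ≠ x₀)).le

theorem Ent_event_le {α : Type*} {w : Ω → ℝ} (hw : IsPr w) (X : Ω → α) (J : α → Prop) :
    Real.binEntropy (mass w (fun o => J (X o))) ≤ Ent w X := by
  rw [← Ent_event hw]
  apply Ent_mono hw
  intro o o' h
  rw [h]

/-- if no value has mass more than one half then the entropy is at least `log 2` -/
theorem Ent_ge_log_two {α : Type*} {w : Ω → ℝ} (hw : IsPr w) (X : Ω → α)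
    (h : ∀ x, mass w (fun o => X o ≠ x) ≥ 1 / 2) : Real.log 2 ≤ Ent w X := by
  classical
  unfold Ent
  have h1 : ∀ o, w o * Real.log 2 ≤ w o * (-Real.log (pr w X (X o))) := by
    intro o
    rcases (hw.nonneg o).eq_or_lt with h0 | h0
    · rw [← h0, zero_mul, zero_mul]
    · apply mul_le_mul_of_nonneg_left _ (hw.nonneg o)
      have h2 := pr_pos hw X h0
      have h3 : pr w X (X o) ≤ 1 / 2 := by
        have h4 := h (X o)
        have h5 := mass_not hw (fun o' => X o' = X o)
        have h6 : mass w (fun o' => X o' = X o) = pr w X (X o) := by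
          unfold mass pr
          apply sum_congr rfl
          intro o' _
          congr
        rw [h6] at h5
        have h7 : mass w (fun o' => X o' ≠ X o) = mass w (fun o' => ¬ X o' = X o) := rfl
        rw [h7, h5] at h4
        linarith
      have h8 := Real.log_le_log h2 h3
      rw [one_div, Real.log_inv] at h8
      linarith
  calc Real.log 2 = ∑ o, w o * Real.log 2 := by rw [← sum_mul, hw.sum_one, one_mul]
    _ ≤ _ := sum_le_sum fun o _ => h1 o

/-- the binary entropy is small near zero -/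
theorem binEntropy_small (η : ℝ) (hη : 0 < η) : ∃ σ : ℝ, 0 < σ ∧
    ∀ b : ℝ, 0 ≤ b → b ≤ σ → Real.binEntropy b ≤ η := by
  have hc := Real.binEntropy_continuous.tendsto 0
  rw [Real.binEntropy_zero] at hc
  have h1 := (Metric.tendsto_nhds_nhds.1 hc) η hη
  obtain ⟨σ, hσ, H⟩ := h1
  refine ⟨σ / 2, by linarith, fun b hb hb' => ?_⟩
  have h2 := H (x := b) (by
    rw [Real.dist_eq, sub_zero, abs_of_nonneg hb]
    linarith)
  rw [Real.dist_eq, sub_zero] at h2
  exact (le_abs_self _).trans h2.le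

/-- **Column lemma for abelian groups.** -/
theorem group_column (η : ℝ) (hη : 0 < η) : ∃ σ : ℝ, 0 < σ ∧ σ ≤ 1 / 2 ∧
    ∀ (Ω Ω' G : Type) [Fintype Ω] [Fintype Ω'] [AddCommGroup G] (w : Ω → ℝ) (w' : Ω' → ℝ)
      (X : Ω → G) (Y : Ω' → G), IsPr w → IsPr w' → mass w' (fun o => Y o ≠ 0) ≤ σ →
      CE (prodW w w') (fun p => X p.1) (fun p => X p.1 + Y p.2) ≤
        η * (Ent w X + Ent w' Y) := by
  set e : ℝ := η / 8 with he
  have he0 : 0 < e := by positivity
  obtain ⟨σ₁, hσ₁, hσ₁', hn1, hn2⟩ := phi_num e he0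
  have hlog2 : 0 < Real.log 2 := Real.log_pos (by norm_num)
  obtain ⟨σ₂, hσ₂, hn3⟩ := binEntropy_small (e * Real.log 2) (by positivity)
  refine ⟨min σ₁ (min σ₂ e), by positivity, (min_le_left _ _).trans hσ₁', ?_⟩
  intro Ω Ω' G _ _ _ w w' X Y hw hw' hτ
  set τ := mass w' (fun o => Y o ≠ 0) with hτdef
  have hτ0 : 0 ≤ τ := mass_nonneg hw' _
  have hτ1 : τ ≤ σ₁ := hτ.trans (min_le_left _ _)
  have hτ2 : τ ≤ σ₂ := hτ.trans ((min_le_right _ _).trans (min_le_left _ _))
  have hτ3 : τ ≤ e := hτ.trans ((min_le_right _ _).trans (min_le_right _ _))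
  have hEX := Ent_nonneg hw X
  have hEY := Ent_nonneg hw' Y
  have hsplit := split_event hw hw' X Y
  rw [← hτdef] at hsplit
  have hτE : τ * Ent w X ≤ e * Ent w X := mul_le_mul_of_nonneg_right hτ3 hEX
  by_cases hmode : ∃ x₀, mass w (fun o => X o ≠ x₀) ≤ 1 / 2
  · obtain ⟨x₀, hx₀⟩ := hmode
    have h1 := event_mode hw hw' X Y x₀
    rw [← hτdef] at h1
    set α := mass w (fun o => X o ≠ x₀) with hα
    have hα0 : 0 ≤ α := mass_nonneg hw _
    have h2 := hn2 τ τ α α hτ0 hτ1 le_rfl (mass_le_one hw' _) hα0 hx₀ hα0 hx₀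
    have h3 : phi τ α ≤ phi τ (τ + α) :=
      phi_mono hτ0 le_rfl hα0 (by linarith)
    have h4 : Real.binEntropy α ≤ Ent w X := Ent_event_le hw X (fun x => x ≠ x₀)
    have h5 : Real.binEntropy τ ≤ Ent w' Y := Ent_event_le hw' Y (fun y => y ≠ 0)
    have h6 := hn1 τ hτ0 hτ1
    have h7 : e * Real.binEntropy α ≤ e * Ent w X := mul_le_mul_of_nonneg_left h4 he0.le
    have h8 : e * Real.binEntropy τ ≤ e * Ent w' Y := mul_le_mul_of_nonneg_left h5 he0.le
    have h9 : η = 8 * e := by rw [he]; ring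
    have h10 : 0 ≤ e * Ent w X := mul_nonneg he0.le hEX
    have h11 : 0 ≤ e * Ent w' Y := mul_nonneg he0.le hEY
    rw [h9]
    nlinarith
  · push Not at hmode
    have h1 := Ent_ge_log_two hw X (fun x => (hmode x).le)
    have h2 : CE (prodW w w') (fun p => (Y p.2 ≠ 0)) (fun p => X p.1 + Y p.2) ≤
        Real.binEntropy τ := by
      refine (CE_le_Ent (hw.prod hw') _ _).trans (le_of_eq ?_)
      rw [Ent_event (hw.prod hw'), mass_snd hw (fun o => Y o ≠ 0)]
    have h3 := hn3 τ hτ0 hτ2
    have h4 : e * Real.log 2 ≤ e * Ent w X := mul_le_mul_of_nonneg_left h1 he0.le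
    have h9 : η = 8 * e := by rw [he]; ring
    have h10 : 0 ≤ e * Ent w X := mul_nonneg he0.le hEX
    have h11 : 0 ≤ e * Ent w' Y := mul_nonneg he0.le hEY
    rw [h9]
    nlinarith

end Pool.Agent.Helper88.RT
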