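import Pool.Agent.Helper88.RT.Defs

set_option autoImplicit false

/-!
MP_120218_co, project RT (R3a): the class of a rational number modulo the rational numbers of small
pole order, at every prime.
-/

open Finset

namespace Pool.Agent.Helper88.RT

/-- the rational numbers with pole order at most `lam q` at the prime `q` -/
def Hq (lam : ℕ → ℕ) (q : ℕ) : AddSubgroup ℚ where
  carrier := {x | q.Prime → ∃ m : ℕ, ¬ q ∣ m ∧ ∃ z : ℤ, ((m : ℚ) * (q : ℚ) ^ lam q) * x = z}
  zero_mem' := by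
    intro hq
    exact ⟨1, by rw [Nat.dvd_one]; exact hq.ne_one, 0, by simp⟩
  add_mem' := by
    intro x y hx hy hq
    obtain ⟨m, hm, z, hz⟩ := hx hq
    obtain ⟨m', hm', z', hz'⟩ := hy hq
    refine ⟨m * m', ?_, m' * z + m * z', ?_⟩
    · rw [hq.dvd_mul]
      tauto
    · push_cast
      rw [← hz, ← hz']
      ring
  neg_mem' := by
    intro x hx hq
    obtain ⟨m, hm, z, hz⟩ := hx hq
    refine ⟨m, hm, -z, ?_⟩
    push_cast
    rw [← hz]
    ring

theorem den_dvd_of_mul {x : ℚ} {n : ℕ} {z : ℤ} (h : (n : ℚ) * x = z) : x.den ∣ n := by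
  have h1 : (n : ℤ) * x.num = z * x.den := by
    have h2 : (x.den : ℚ) ≠ 0 := by exact_mod_cast x.den_ne_zero
    have h3 : x = x.num / x.den := (Rat.num_div_den x).symm
    have h4 : (n : ℚ) * (x.num : ℚ) = z * x.den := by
      calc (n : ℚ) * (x.num : ℚ) = (n : ℚ) * ((x.num : ℚ) / x.den) * x.den := by field_simp
        _ = z * x.den := by rw [← h3, h]
    exact_mod_cast h4
  have h2 : (x.den : ℤ) ∣ (n : ℤ) * x.num := ⟨z, by rw [h1, mul_comm]⟩
  have h3 : IsCoprime (x.den : ℤ) x.num := by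
    rw [Int.isCoprime_iff_gcd_eq_one]
    have := x.reduced
    rw [Int.gcd_comm]
    exact this
  have h4 := h3.dvd_of_dvd_mul_right h2
  exact_mod_cast h4

theorem mem_Hq {lam : ℕ → ℕ} {q : ℕ} (hq : q.Prime) {x : ℚ} :
    x ∈ Hq lam q ↔ ¬ q ^ (lam q + 1) ∣ x.den := by
  constructor
  · intro hx hdvd
    obtain ⟨m, hm, z, hz⟩ := hx hq
    have h1 : x.den ∣ m * q ^ lam q := den_dvd_of_mul (z := z) (by push_cast; exact hz)
    have h2 := hdvd.trans h1
    rw [pow_succ', Nat.mul_dvd_mul_iff_right (pow_pos hq.pos _)] at h2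
    exact hm h2
  · intro hx _
    obtain ⟨j, m, hm, hjm⟩ := Nat.exists_eq_pow_mul_and_not_dvd x.den_ne_zero q hq.ne_one
    have hj : j ≤ lam q := by
      by_contra h
      push Not at h
      apply hx
      rw [hjm]
      exact (pow_dvd_pow _ h).mul_right _
    refine ⟨m, hm, (q : ℤ) ^ (lam q - j) * x.num, ?_⟩
    have h2 : (x.den : ℚ) ≠ 0 := by exact_mod_cast x.den_ne_zero
    have h3 : (x.den : ℚ) * x = x.num := Rat.den_mul_eq_num x
    have h4 : (x.den : ℚ) = (q : ℚ) ^ j * m := by exact_mod_cast hjm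
    push_cast
    rw [← h3, h4]
    have h5 : (q : ℚ) ^ lam q = (q : ℚ) ^ (lam q - j) * (q : ℚ) ^ j := by
      rw [← pow_add]
      congr 1
      omega
    rw [h5]
    ring

/-- all classes -/
def cl (lam : ℕ → ℕ) (x : ℚ) : ∀ q : ℕ, ℚ ⧸ Hq lam q := fun _ => (QuotientAddGroup.mk x)

theorem cl_add (lam : ℕ → ℕ) (x y : ℚ) : cl lam (x + y) = cl lam x + cl lam y := rfl

theorem cl_zero_iff {lam : ℕ → ℕ} {q : ℕ} {x : ℚ} : cl lam x q = 0 ↔ x ∈ Hq lam q :=
  QuotientAddGroup.eq_zero_iff x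

theorem cl_eq_iff {lam : ℕ → ℕ} {q : ℕ} {x y : ℚ} : cl lam x q = cl lam y q ↔ x - y ∈ Hq lam q := by
  unfold cl
  rw [QuotientAddGroup.eq, ← neg_mem_iff, neg_add, neg_neg, sub_eq_add_neg]

/-- the pole orders of a sum -/
theorem den_add {q : ℕ} (hq : q.Prime) {l : ℕ} {x y : ℚ} (h : q ^ (l + 1) ∣ (x + y).den) :
    q ^ (l + 1) ∣ x.den ∨ q ^ (l + 1) ∣ y.den := by
  by_contra hcon
  push Not at hcon
  have h1 : x ∈ Hq (fun _ => l) q := (mem_Hq hq).2 hcon.1
  have h2 : y ∈ Hq (fun _ => l) q := (mem_Hq hq).2 hcon.2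
  exact (mem_Hq hq).1 (add_mem h1 h2) h

theorem Dn_pos (n : ℕ) (lam : ℕ → ℕ) : 0 < Dn n lam := by
  unfold Dn
  apply prod_pos
  intro q hq
  exact pow_pos (mem_filter.1 hq).2.pos _

theorem Dn_ext {n n' : ℕ} (hn : n ≤ n') {lam : ℕ → ℕ} (h : ∀ q, n ≤ q → lam q = 0) :
    Dn n' lam = Dn n lam := by
  unfold Dn
  symm
  apply prod_subset
  · intro q hq
    rw [mem_filter, mem_range] at hq ⊢
    exact ⟨by omega, hq.2⟩
  · intro q hq hq'
    rw [mem_filter, mem_range] at hq hq'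
    have : n ≤ q := by
      by_contra hcon
      exact hq' ⟨by omega, hq.2⟩
    rw [h q this, pow_zero]

/-- equal classes at all primes below `n` -/
theorem cell_of_classes {n : ℕ} {lam : ℕ → ℕ} {x y : ℚ}
    (hx : ∀ q : ℕ, q.Prime → q ∣ x.den → q < n) (hy : ∀ q : ℕ, q.Prime → q ∣ y.den → q < n)
    (h : ∀ q, q < n → cl lam x q = cl lam y q) : CellQ (Dn n lam) x y := by
  have hden : ∀ q : ℕ, q.Prime → q ∣ (x - y).den → q < n := by
    intro q hq hqd
    have h1 : q ^ (0 + 1) ∣ (x + -y).den := by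
      rw [zero_add, pow_one, ← sub_eq_add_neg]
      exact hqd
    rcases den_add hq h1 with h2 | h2
    · rw [zero_add, pow_one] at h2
      exact hx q hq h2
    · rw [zero_add, pow_one, Rat.den_neg_eq_den] at h2
      exact hy q hq h2
  have hdvd : (x - y).den ∣ Dn n lam := by
    rw [← Nat.factorization_prime_le_iff_dvd (x - y).den_ne_zero (Dn_pos n lam).ne']
    intro q hq
    by_cases hqd : q ∣ (x - y).den
    · have hqn := hden q hq hqd
      have h1 : ¬ q ^ (lam q + 1) ∣ (x - y).den :=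
        (mem_Hq hq).1 (cl_eq_iff.1 (h q hqn))
      have h2 : (x - y).den.factorization q ≤ lam q := by
        by_contra hcon
        push Not at hcon
        exact h1 ((hq.pow_dvd_iff_le_factorization (x - y).den_ne_zero).2 hcon)
      refine h2.trans ?_
      rw [← hq.pow_dvd_iff_le_factorization (Dn_pos n lam).ne']
      unfold Dn
      exact dvd_prod_of_mem (fun q => q ^ lam q) (mem_filter.2 ⟨mem_range.2 hqn, hq⟩)
    · rw [Nat.factorization_eq_zero_of_not_dvd hqd]
      exact Nat.zero_le _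
  obtain ⟨m, hm⟩ := hdvd
  refine ⟨(m : ℤ) * (x - y).num, ?_⟩
  rw [hm]
  push_cast
  have h3 : ((x - y).den : ℚ) * (x - y) = (x - y).num := Rat.den_mul_eq_num (x - y)
  rw [← h3]
  ring

end Pool.Agent.Helper88.RT
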