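import Pool.Agent.Helper88.RT.Past
import Pool.Agent.Helper88.RT.Lab

set_option autoImplicit false

/-!
MP_120218_co, project RT (R3): decoding the terms of a sum of rational numbers one after the other.
-/

open Finset

namespace Pool.Agent.Helper88.RT

open Pool.Agent.Helper15.BP Pool.Agent.Helper84.TR

/-- uniform weights on a finset -/
noncomputable def uw (Y : Finset ℤ) : {x // x ∈ Y} → ℝ := fun _ => 1 / (Y.card : ℝ)

theorem uw_isPr {Y : Finset ℤ} (hY : Y.Nonempty) : IsPr (uw Y) := by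
  have h0 : (0 : ℝ) < Y.card := by exact_mod_cast hY.card_pos
  refine ⟨fun _ => by unfold uw; positivity, ?_⟩
  unfold uw
  rw [Finset.sum_const, Finset.card_univ, Fintype.card_coe, nsmul_eq_mul]
  field_simp

theorem Ent_uw {Y : Finset ℤ} (hY : Y.Nonempty) :
    Ent (uw Y) (fun x => (x : ℤ)) = Real.log Y.card := by
  classical
  have h0 : (0 : ℝ) < Y.card := by exact_mod_cast hY.card_pos
  have hpr : ∀ o : {x // x ∈ Y}, pr (uw Y) (fun x => (x : ℤ)) (o : ℤ) = 1 / (Y.card : ℝ) := by
    intro o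
    unfold pr
    rw [Finset.sum_eq_single o]
    · simp [uw]
    · intro b _ hb
      rw [if_neg]
      intro h
      exact hb (Subtype.ext h)
    · intro h; exact absurd (Finset.mem_univ _) h
  have h1 : Ent (uw Y) (fun x => (x : ℤ)) = ∑ _o : {x // x ∈ Y}, (1 / (Y.card : ℝ)) *
      Real.log Y.card := by
    unfold Ent
    refine Finset.sum_congr rfl fun o _ => ?_
    rw [hpr o, one_div, Real.log_inv, neg_neg]
    simp [uw]
  rw [h1, Finset.sum_const, Finset.card_univ, Fintype.card_coe, nsmul_eq_mul]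
  field_simp

theorem mass_uw {Y : Finset ℤ} (hY : Y.Nonempty) (P : ℤ → Prop) [DecidablePred P] (κ : ℝ)
    (h : ((Y.filter P).card : ℝ) ≤ κ * Y.card) : mass (uw Y) (fun x => P x) ≤ κ := by
  classical
  have h0 : (0 : ℝ) < Y.card := by exact_mod_cast hY.card_pos
  have h1 : mass (uw Y) (fun x => P x) = ((Y.filter P).card : ℝ) / Y.card := by
    have h2 : mass (uw Y) (fun x => P x) =
        ∑ o : {x // x ∈ Y}, (if P o then 1 / (Y.card : ℝ) else 0) := by
      unfold mass uw
      refine Finset.sum_congr rfl fun o _ => ?_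
      by_cases h : P o
      · simp [h]
      · simp [h]
    rw [h2, ← Finset.sum_filter, Finset.sum_const, nsmul_eq_mul, mul_one_div]
    congr 2
    refine Finset.card_bij (fun x _ => (x : ℤ)) ?_ ?_ ?_
    · intro x hx
      rw [mem_filter] at hx ⊢
      exact ⟨x.2, hx.2⟩
    · intro x _ y _ hxy
      exact Subtype.ext hxy
    · intro b hb
      rw [mem_filter] at hb
      exact ⟨⟨b, hb.1⟩, by rw [mem_filter]; exact ⟨mem_univ _, hb.2⟩, rfl⟩
  rw [h1, div_le_iff₀ h0]
  exact h

/-- **Decoding one term.** -/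
theorem dec_one {η σ : ℝ} (hη : 0 ≤ η) (hσ : 0 < σ) (hcol : ColProp η σ) {Ω : Type} [Fintype Ω]
    {w : Ω → ℝ} (hw : IsPr w) {Y : Finset ℤ} (hY : Y.Nonempty) (u : ℤ → ℚ) (S : Ω → ℚ)
    (n : ℕ) (lam : ℕ → ℕ) {L H : ℝ} (hL : Real.log Y.card ≤ L) (hH : Ent w S ≤ H)
    (hS : ∀ q : ℕ, q.Prime → mass w (fun o => q ^ (lam q + 1) ∣ (S o).den) ≤ η * σ)
    {M : ℕ}
    (hcell : ∀ b ∈ Y, {b' : ℤ | b' ∈ Y ∧ ∀ q, q < n → cl lam (u b') q = cl lam (u b) q}.ncard ≤ M) :
    CE (prodW (uw Y) w) (fun p => (p.1 : ℤ)) (fun p => u p.1 + S p.2) ≤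
      2 * η * (L + H) + Real.log M := by
  classical
  have hu := uw_isPr hY
  have hp := hu.prod hw
  set X : {x // x ∈ Y} → ∀ q : ℕ, ℚ ⧸ Hq lam q := fun x => cl lam (u x) with hX
  set Z : Ω → ∀ q : ℕ, ℚ ⧸ Hq lam q := fun o => cl lam (S o) with hZ
  -- step 1
  have h1 : CE (prodW (uw Y) w) (fun p => (p.1 : ℤ)) (fun p => u p.1 + S p.2) ≤
      CE (prodW (uw Y) w) (fun p => ((p.1 : ℤ), tr n X p.1)) (fun p => u p.1 + S p.2) := by
    apply CE_mono hp
    intro o o' _ h
    exact congrArg Prod.fst h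
  have h2 := CE_chain (prodW (uw Y) w) (fun p => (p.1 : ℤ)) (fun p => tr n X p.1)
    (fun p => u p.1 + S p.2)
  -- the classes
  have h3 : CE (prodW (uw Y) w) (fun p => tr n X p.1) (fun p => u p.1 + S p.2) ≤
      CE (prodW (uw Y) w) (fun p => tr n X p.1)
        (fun p => tr n (fun p : {x // x ∈ Y} × Ω => X p.1 + Z p.2) p) := by
    apply CE_anti hp
    intro o o' h
    rw [tr_eq_iff]
    intro q _
    have e1 : ∀ p : {x // x ∈ Y} × Ω, X p.1 + Z p.2 = cl lam (u p.1 + S p.2) := fun p => rfl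
    rw [e1, e1, h]
  have hmass : ∀ q, q < n → mass w (fun o => Z o q ≠ 0) ≤ η * σ := by
    intro q _
    by_cases hq : q.Prime
    · refine le_trans (mass_mono hw ?_) (hS q hq)
      intro o ho
      by_contra hcon
      exact ho (cl_zero_iff.2 ((mem_Hq hq).2 hcon))
    · have e1 : mass w (fun o => Z o q ≠ 0) = 0 := by
        unfold mass
        apply sum_eq_zero
        intro o _
        rw [if_neg]
        rw [not_not]
        apply cl_zero_iff.2
        intro h
        exact absurd h hq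
      rw [e1]
      positivity
  have h4 := dec_cols hη hσ hcol le_rfl hu hw X Z n hmass
  have h5 : Ent (uw Y) (tr n X) ≤ L := by
    refine le_trans ?_ hL
    rw [← Ent_uw hY]
    apply Ent_mono hu
    intro o o' h
    have : o = o' := Subtype.ext h
    rw [this]
  have h6 : Ent w (tr n Z) ≤ H := by
    refine le_trans ?_ hH
    apply Ent_mono hw
    intro o o' h
    rw [tr_eq_iff]
    intro q _
    simp only [hZ]
    rw [h]
  have h7 : 2 * η * (Ent (uw Y) (tr n X) + Ent w (tr n Z)) ≤ 2 * η * (L + H) :=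
    mul_le_mul_of_nonneg_left (by linarith) (by linarith)
  -- the cells
  have h8 : CE (prodW (uw Y) w) (fun p => (p.1 : ℤ)) (fun p => (tr n X p.1, u p.1 + S p.2)) ≤
      CE (prodW (uw Y) w) (fun p => (p.1 : ℤ)) (fun p => tr n X p.1) := by
    apply CE_anti hp
    intro o o' h
    exact congrArg Prod.fst h
  have h9 : CE (prodW (uw Y) w) (fun p => (p.1 : ℤ)) (fun p => tr n X p.1) ≤ Real.log M := by
    apply CE_le_log hp
    intro o
    refine le_trans (Set.ncard_le_ncard ?_ ?_) (hcell o.1 o.1.2)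
    · rintro b ⟨o', h, rfl⟩
      refine ⟨o'.1.2, ?_⟩
      rw [tr_eq_iff] at h
      exact h
    · exact Set.Finite.subset Y.finite_toSet fun b hb => hb.1
  rw [h2] at h1
  linarith

/-- what is known after `l` terms -/
def St {k : ℕ} (Y : Fin k → Finset ℤ) (u : Fin k → ℤ → ℚ) (lam : Fin k → ℕ → ℕ) (κ L B : ℝ)
    (l : ℕ) : Prop :=
  ∃ (Ω : Type) (_ : Fintype Ω) (w : Ω → ℝ) (S : Ω → ℚ), IsPr w ∧
    (∀ o, ∃ f : Fin k → ℤ, (∀ i : Fin k, (i : ℕ) < l → f i ∈ Y i) ∧
      S o = ∑ i : Fin k, if (i : ℕ) < l then u i (f i) else 0) ∧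
    (∑ i : Fin k, (if (i : ℕ) < l then Real.log ((Y i).card) else 0)) - l * B ≤ Ent w S ∧
    Ent w S ≤ l * L ∧
    ∀ m : Fin k, l ≤ (m : ℕ) → ∀ q : ℕ, q.Prime →
      mass w (fun o => q ^ (lam m q + 1) ∣ (S o).den) ≤ l * κ

theorem st_zero {k : ℕ} (Y : Fin k → Finset ℤ) (u : Fin k → ℤ → ℚ) (lam : Fin k → ℕ → ℕ)
    (κ L B : ℝ) : St Y u lam κ L B 0 := by
  classical
  have hw : IsPr (fun _ : Unit => (1 : ℝ)) := ⟨fun _ => by norm_num, by simp⟩
  refine ⟨Unit, inferInstance, fun _ => 1, fun _ => 0, hw, ?_, ?_, ?_, ?_⟩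
  · intro o
    exact ⟨fun _ => 0, fun i hi => absurd hi (by omega), by simp⟩
  · rw [Ent_const hw]; simp
  · rw [Ent_const hw]; simp
  · intro m _ q hq
    unfold mass
    rw [sum_eq_zero]
    · simp
    · intro o _
      rw [if_neg]
      intro h
      rw [Rat.den_zero, Nat.dvd_one] at h
      have h1 : 1 < q ^ (lam m q + 1) := Nat.one_lt_pow (by omega) hq.one_lt
      omega

theorem st_step {k : ℕ} (Y : Fin k → Finset ℤ) (u : Fin k → ℤ → ℚ) (lam : Fin k → ℕ → ℕ)
    (κ L B : ℝ) (l : ℕ)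
    (hl : l < k) (hY : ∀ i, (Y i).Nonempty)
    (hYL : ∀ i, ((Y i).card : ℝ) ≤ Real.exp L)
    (hlam : ∀ m m' : Fin k, m' < m → ∀ q : ℕ, q.Prime →
        ((((Y m').filter (fun b => q ^ (lam m q + 1) ∣ (u m' b).den)).card : ℝ) ≤
          κ * (Y m').card))
    (hCE : ∀ (Ω : Type) (_ : Fintype Ω) (w : Ω → ℝ) (S : Ω → ℚ), IsPr w →
      (l = 0 → ∀ o, S o = 0) → Ent w S ≤ l * L →
      (∀ q : ℕ, q.Prime →
        mass w (fun o => q ^ (lam ⟨l, hl⟩ q + 1) ∣ (S o).den) ≤ l * κ) →
      CE (prodW (uw (Y ⟨l, hl⟩)) w) (fun p => (p.1 : ℤ)) (fun p => u ⟨l, hl⟩ p.1 + S p.2) ≤ B)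
    (h : St Y u lam κ L B l) : St Y u lam κ L B (l + 1) := by
  classical
  obtain ⟨Ω, hΩ, w, S, hw, hS, h1, h2, h3⟩ := h
  set i₀ : Fin k := ⟨l, hl⟩ with hi₀
  have hSone : l = 0 → ∀ o, S o = 0 := by
    intro hl0 o
    obtain ⟨f, f1, f3⟩ := hS o
    rw [f3]
    exact Finset.sum_eq_zero fun i _ => by rw [if_neg (by omega)]
  have hu := uw_isPr (hY i₀)
  have hB := hCE Ω hΩ w S hw hSone h2 (h3 i₀ (le_refl _))
  have hpair : Ent (prodW (uw (Y i₀)) w) (fun p => ((p.1 : ℤ), u i₀ p.1 + S p.2)) =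
      Real.log ((Y i₀).card) + Ent w S := by
    rw [← Ent_uw (hY i₀), ← Ent_prod hu hw]
    refine Ent_congr fun o o' => ?_
    simp only [Prod.mk.injEq]
    constructor
    · rintro ⟨e1, e2⟩
      refine ⟨e1, ?_⟩
      rw [e1] at e2
      exact add_left_cancel e2
    · rintro ⟨e1, e2⟩
      exact ⟨e1, by rw [e1, e2]⟩
  have hlogY : Real.log ((Y i₀).card) ≤ L := by
    have h0 : (0 : ℝ) < (Y i₀).card := by exact_mod_cast (hY i₀).card_pos
    rw [Real.log_le_iff_le_exp h0]
    exact hYL i₀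
  refine ⟨{x // x ∈ Y i₀} × Ω, inferInstance, prodW (uw (Y i₀)) w, fun p => u i₀ p.1 + S p.2,
    hu.prod hw, ?_, ?_, ?_, ?_⟩
  · rintro ⟨x, o⟩
    obtain ⟨f, f1, f3⟩ := hS o
    refine ⟨Function.update f i₀ x, ?_, ?_⟩
    · intro i hi
      by_cases hii : i = i₀
      · rw [hii, Function.update_self]; exact x.2
      · rw [Function.update_of_ne hii]
        refine f1 i ?_
        have : (i : ℕ) ≠ l := fun h => hii (Fin.ext h)
        omega
    · simp only
      rw [f3, ← Finset.add_sum_erase univ (fun i : Fin k => if (i : ℕ) < l + 1 then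
        u i (Function.update f i₀ (x : ℤ) i) else 0) (mem_univ i₀),
        ← Finset.add_sum_erase univ (fun i : Fin k => if (i : ℕ) < l then
        u i (f i) else 0) (mem_univ i₀)]
      have e0 : (i₀ : ℕ) < l + 1 := Nat.lt_succ_self l
      have e0' : ¬ (i₀ : ℕ) < l := lt_irrefl l
      rw [if_pos e0, if_neg e0', Function.update_self, zero_add]
      congr 1
      apply sum_congr rfl
      intro i hi
      have hii : i ≠ i₀ := ne_of_mem_erase hi
      have hne : (i : ℕ) ≠ l := fun h => hii (Fin.ext h)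
      rw [Function.update_of_ne hii]
      by_cases hil : (i : ℕ) < l
      · rw [if_pos hil, if_pos (by omega)]
      · rw [if_neg hil, if_neg (by omega)]
  · unfold CE at hB
    rw [hpair] at hB
    have e1 : (∑ i : Fin k, (if (i : ℕ) < l + 1 then Real.log ((Y i).card) else 0)) =
        (∑ i : Fin k, (if (i : ℕ) < l then Real.log ((Y i).card) else 0)) +
          Real.log ((Y i₀).card) := by
      have e2 : ∀ i : Fin k, (if (i : ℕ) < l + 1 then Real.log ((Y i).card) else 0) =
          (if (i : ℕ) < l then Real.log ((Y i).card) else 0) +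
            (if i = i₀ then Real.log ((Y i).card) else 0) := by
        intro i
        by_cases hii : i = i₀
        · rw [hii, hi₀]; simp
        · have : (i : ℕ) ≠ l := fun h => hii (Fin.ext h)
          rw [if_neg hii, add_zero]
          by_cases h : (i : ℕ) < l
          · rw [if_pos h, if_pos (by omega)]
          · rw [if_neg h, if_neg (by omega)]
      rw [Finset.sum_congr rfl fun i _ => e2 i, Finset.sum_add_distrib]
      simp
    rw [e1]
    push_cast
    linarith
  · have e1 : Ent (prodW (uw (Y i₀)) w) (fun p => u i₀ p.1 + S p.2) ≤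
        Ent (prodW (uw (Y i₀)) w) (fun p => ((p.1 : ℤ), u i₀ p.1 + S p.2)) :=
      Ent_mono (hu.prod hw) fun o o' e => congrArg Prod.snd e
    rw [hpair] at e1
    push_cast
    linarith
  · intro m hm q hq
    have e1 : mass (prodW (uw (Y i₀)) w) (fun p => q ^ (lam m q + 1) ∣ (u i₀ p.1 + S p.2).den) ≤
        mass (prodW (uw (Y i₀)) w)
          (fun p => (fun x : {x // x ∈ Y i₀} => (q ^ (lam m q + 1) ∣ (u i₀ x).den)) p.1 ∨
          (fun o => q ^ (lam m q + 1) ∣ (S o).den) p.2) := by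
      refine mass_mono (hu.prod hw) ?_
      intro p hp
      exact den_add hq hp
    refine e1.trans ((mass_or_le (hu.prod hw) _ _).trans ?_)
    rw [mass_fst hw (fun x : {x // x ∈ Y i₀} => (q ^ (lam m q + 1) ∣ (u i₀ x).den)),
      mass_snd hu (fun o => q ^ (lam m q + 1) ∣ (S o).den)]
    have e2 := mass_uw (hY i₀) (fun b => q ^ (lam m q + 1) ∣ (u i₀ b).den) κ (hlam m i₀ (by
      rw [Fin.lt_def, hi₀]; simp; omega) q hq)
    have e3 := h3 m (by omega) q hq
    push_cast at e2 e3 ⊢
    linarith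

/-- **The decoding corollary for sums of rational numbers.** -/
theorem corQ : CorQ := by
  classical
  intro k ζ hζ
  have hk1 : (0 : ℝ) < (k : ℝ) + 1 := by positivity
  set η : ℝ := min 1 (ζ / (2 * (k + 1))) with hη
  have hη0 : 0 < η := lt_min one_pos (by positivity)
  have hη1 : η ≤ 1 := min_le_left _ _
  have hηζ : η * (2 * (k + 1)) ≤ ζ := by
    have h1 : η ≤ ζ / (2 * (k + 1)) := min_le_right _ _
    rwa [le_div_iff₀ (by positivity)] at h1
  obtain ⟨σ, hσ0, hσ1, hcol⟩ := group_column η hη0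
  refine ⟨η * σ / (k + 1), by positivity, ?_, ?_⟩
  · rw [div_le_one hk1]
    have h1 : η * σ ≤ 1 * (1 / 2) := mul_le_mul hη1 hσ1 hσ0.le (by norm_num)
    have : (0 : ℝ) ≤ k := Nat.cast_nonneg k
    linarith
  intro Y u L M n lam hL hM hY hYL hinj hn hlam hcell
  have hL0 : 0 ≤ L := by linarith
  have hlogM : 0 ≤ Real.log M := Real.log_natCast_nonneg M
  have hB0 : 0 ≤ ζ * L + Real.log M := by positivity
  have hlogY : ∀ i, Real.log ((Y i).card) ≤ L := by
    intro i
    have h0 : (0 : ℝ) < (Y i).card := by exact_mod_cast (hY i).card_pos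
    rw [Real.log_le_iff_le_exp h0]
    exact hYL i
  have hst : ∀ l : ℕ, l ≤ k → St Y u lam (η * σ / (k + 1)) L (ζ * L + Real.log M) l := by
    intro l
    induction l with
    | zero => intro _; exact st_zero Y u lam _ _ _
    | succ l ih =>
      intro hl
      refine st_step Y u lam _ L _ l (by omega) hY hYL hlam ?_ (ih (by omega))
      intro Ω hΩ w S hw hSone hSL hSm
      set i₀ : Fin k := ⟨l, by omega⟩ with hi₀
      have hu := uw_isPr (hY i₀)
      rcases Nat.eq_zero_or_pos l with hl0 | hl0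
      · -- the first term is the sum itself
        refine le_trans (le_of_eq ?_) hB0
        have e1 : CE (prodW (uw (Y i₀)) w) (fun p => (p.1 : ℤ)) (fun p => u i₀ p.1 + S p.2) =
            CE (prodW (uw (Y i₀)) w) (fun _ => (0 : ℤ)) (fun p => u i₀ p.1 + S p.2) := by
          refine CE_congr (fun o o' => Iff.rfl) ?_
          intro o o' e
          simp only [hSone hl0, add_zero] at e
          exact ⟨fun _ => rfl, fun _ => hinj i₀ hl0 o.1.2 o'.1.2 e⟩
        rw [e1]
        unfold CE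
        rw [sub_eq_zero]
        refine Ent_congr fun o o' => ?_
        simp
      · -- decoding
        set n' : ℕ := max n (((Y i₀).sup fun b => (u i₀ b).den) + 1) with hn'
        have hbig : ∀ b ∈ Y i₀, ∀ q : ℕ, q.Prime → q ∣ (u i₀ b).den → q < n' := by
          intro b hb q hq hqb
          have e1 : q ≤ (u i₀ b).den := Nat.le_of_dvd (Rat.den_pos _) hqb
          have e2 : (u i₀ b).den ≤ (Y i₀).sup fun b => (u i₀ b).den :=
            Finset.le_sup (f := fun b => (u i₀ b).den) hb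
          rw [hn']
          exact lt_of_lt_of_le (by omega) (le_max_right _ _)
        have h1 := dec_one hη0.le hσ0 hcol hw (hY i₀) (u i₀) S n' (lam i₀) (hlogY i₀) hSL
          (M := M) ?_ ?_
        · refine h1.trans ?_
          have e2 : (l : ℝ) * L ≤ k * L := by
            have : (l : ℝ) ≤ k := by exact_mod_cast (show l ≤ k by omega)
            nlinarith
          have e3 : 2 * η * (L + l * L) ≤ ζ * L := by
            calc 2 * η * (L + l * L) ≤ 2 * η * (L + k * L) := by
                  apply mul_le_mul_of_nonneg_left _ (by positivity)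
                  linarith
              _ = (η * (2 * (k + 1))) * L := by ring
              _ ≤ ζ * L := mul_le_mul_of_nonneg_right hηζ hL0
          linarith
        · intro q hq
          refine (hSm q hq).trans ?_
          have e4 : (l : ℝ) * (η * σ / (k + 1)) = (η * σ) * (l / (k + 1)) := by ring
          rw [e4]
          have e5 : (l : ℝ) / (k + 1) ≤ 1 := by
            rw [div_le_one hk1]
            have : (l : ℝ) ≤ k := by exact_mod_cast (show l ≤ k by omega)
            linarith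
          have : 0 ≤ η * σ := by positivity
          nlinarith
        · intro b hb
          have h2 := hcell i₀ hl0 b hb
          rw [← Set.ncard_coe_finset] at h2
          refine le_trans (Set.ncard_le_ncard ?_ (Finset.finite_toSet _)) h2
          rintro b' ⟨hb', hcl⟩
          rw [mem_coe, mem_filter]
          refine ⟨hb', ?_⟩
          have h3 := cell_of_classes (n := n') (lam := lam i₀) (hbig b hb) (hbig b' hb')
            (fun q hq => (hcl q hq).symm)
          rwa [Dn_ext (le_max_left _ _) (hn i₀)] at h3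
  obtain ⟨Ω, hΩ, w, S, hw, hS, h1, h2, h3⟩ := hst k (le_refl _)
  have e1 : (∑ i : Fin k, (if (i : ℕ) < k then Real.log ((Y i).card) else 0)) =
      ∑ l, Real.log ((Y l).card) := Finset.sum_congr rfl fun i _ => by rw [if_pos i.2]
  rw [e1] at h1
  refine h1.trans ?_
  -- entropy at most the logarithm of the number of values
  have e2 : Ent w S ≤ CE w S (fun _ => (0 : ℤ)) := by
    unfold CE
    rw [Ent_const hw, sub_zero]
    exact Ent_mono hw fun o o' e => congrArg Prod.fst e
  refine e2.trans (CE_le_log hw S _ _ ?_)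
  intro o
  have hsub : {a : ℚ | ∃ o', (fun _ : Ω => (0 : ℤ)) o' = (fun _ : Ω => (0 : ℤ)) o ∧ S o' = a} ⊆
      (((Fintype.piFinset Y).image (fun f : Fin k → ℤ => ∑ i, u i (f i)) : Finset ℚ) : Set ℚ) := by
    rintro a ⟨o', -, rfl⟩
    obtain ⟨f, f1, f3⟩ := hS o'
    rw [Finset.coe_image]
    refine ⟨f, ?_, ?_⟩
    · rw [Finset.mem_coe, Fintype.mem_piFinset]
      exact fun i => f1 i i.2
    · rw [f3]
      exact Finset.sum_congr rfl fun i _ => by rw [if_pos i.2]
  refine le_trans (Set.ncard_le_ncard hsub (Finset.finite_toSet _)) ?_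
  rw [Set.ncard_coe_finset]

/-- **The decoding corollary for sums of reciprocals.** -/
theorem corR : CorR := by
  classical
  intro k ζ hζ
  obtain ⟨κ, hκ0, hκ1, H⟩ := corQ k ζ hζ
  refine ⟨κ, hκ0, hκ1, ?_⟩
  intro Y L M n lam hL hM hY hY0 hYL hn hlam hcell
  have h := H Y (fun _ b => ((b : ℤ) : ℚ)⁻¹) L M n lam hL hM hY hYL ?_ hn ?_ ?_
  · unfold recSum
    convert h using 3
  · intro l _ a _ b _ hab
    have h1 : ((a : ℤ) : ℚ) = b := inv_injective hab
    exact_mod_cast h1
  · intro l l' hl q hq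
    have h1 := hlam l l' hl q hq
    refine le_trans ?_ h1
    apply Nat.cast_le.2
    apply card_le_card
    intro b hb
    rw [mem_filter] at hb ⊢
    refine ⟨hb.1, ?_⟩
    have hb0 : b ≠ 0 := fun h => hY0 l' (h ▸ hb.1)
    have h2 : (((b : ℤ) : ℚ)⁻¹).den = b.natAbs := by
      rw [Rat.inv_intCast_den]
      rw [if_neg hb0]
    rw [h2] at hb
    have h3 := hb.2
    rw [← Int.natCast_dvd_natCast] at h3
    push_cast at h3
    exact (dvd_abs _ _).1 h3
  · intro l hl b hb
    have h1 := hcell l hl b hb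
    convert h1 using 3
    exact Iff.rfl

end Pool.Agent.Helper88.RT
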