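import Pool.Agent.Helper26.TR.Defs

set_option autoImplicit false

/-!
MP_120218_co, project RT (sums of reciprocals): definitions shared by all files.
-/

open Finset

namespace Pool.Agent.Helper88.RT

open Pool.Agent.Helper26.TR

/-- the sums `∑ 1 / f i` with `f i` in the `i`-th set -/
def recSum {k : ℕ} (A : Fin k → Finset ℤ) : Finset ℚ :=
  (Fintype.piFinset A).image (fun f : Fin k → ℤ => ∑ i, ((f i : ℤ) : ℚ)⁻¹)

/-- the product of the prime powers `q ^ lam q`, `q < n` -/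
def Dn (n : ℕ) (lam : ℕ → ℕ) : ℕ := ∏ q ∈ (range n).filter Nat.Prime, q ^ lam q

/-- `D (x - y)` is an integer -/
def CellQ (D : ℕ) (x y : ℚ) : Prop := ∃ z : ℤ, (D : ℚ) * (x - y) = z

/-- `D (1/b - 1/b')` is an integer -/
def Cell (D : ℕ) (b b' : ℤ) : Prop := CellQ D ((b : ℚ)⁻¹) ((b' : ℚ)⁻¹)

/-- the weight of a system of leading digits, for reciprocals -/
noncomputable def W1a (T : Finset ℕ) (e : ℕ → ℕ) (β : ℕ → ℤ) : ℝ :=
  ∑ p ∈ T, ((e p - 2 * padicValInt p (β p) : ℕ) : ℝ) * Real.log p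

open Classical in
/-- the decoding corollary for sums of rational numbers (helper88, R1 - R3), as a proposition -/
def CorQ : Prop :=
  ∀ (k : ℕ) (ζ : ℝ), 0 < ζ → ∃ κ : ℝ, 0 < κ ∧ κ ≤ 1 ∧
    ∀ (Y : Fin k → Finset ℤ) (u : Fin k → ℤ → ℚ) (L : ℝ) (M : ℕ) (n : ℕ)
      (lam : Fin k → ℕ → ℕ), 1 ≤ L → 1 ≤ M →
      (∀ l, (Y l).Nonempty) → (∀ l, ((Y l).card : ℝ) ≤ Real.exp L) →
      (∀ l : Fin k, (l : ℕ) = 0 → Set.InjOn (u l) (Y l)) →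
      (∀ l q, n ≤ q → lam l q = 0) →
      (∀ l l' : Fin k, l' < l → ∀ q : ℕ, q.Prime →
        (((Y l').filter (fun b => q ^ (lam l q + 1) ∣ (u l' b).den)).card : ℝ) ≤
          κ * (Y l').card) →
      (∀ l : Fin k, 0 < (l : ℕ) → ∀ b ∈ Y l,
        ((Y l).filter (fun b' => CellQ (Dn n (lam l)) (u l b) (u l b'))).card ≤ M) →
      ∑ l, Real.log ((Y l).card) - k * (ζ * L + Real.log M) ≤
        Real.log (((Fintype.piFinset Y).image (fun f : Fin k → ℤ => ∑ i, u i (f i))).card)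

open Classical in
/-- the decoding corollary for sums of reciprocals, as a proposition -/
def CorR : Prop :=
  ∀ (k : ℕ) (ζ : ℝ), 0 < ζ → ∃ κ : ℝ, 0 < κ ∧ κ ≤ 1 ∧
    ∀ (Y : Fin k → Finset ℤ) (L : ℝ) (M : ℕ) (n : ℕ) (lam : Fin k → ℕ → ℕ), 1 ≤ L → 1 ≤ M →
      (∀ l, (Y l).Nonempty) → (∀ l, (0 : ℤ) ∉ Y l) → (∀ l, ((Y l).card : ℝ) ≤ Real.exp L) →
      (∀ l q, n ≤ q → lam l q = 0) →
      (∀ l l' : Fin k, l' < l → ∀ q : ℕ, q.Prime →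
        (((Y l').filter (fun b => (q : ℤ) ^ (lam l q + 1) ∣ b)).card : ℝ) ≤ κ * (Y l').card) →
      (∀ l : Fin k, 0 < (l : ℕ) → ∀ b ∈ Y l,
        ((Y l).filter (fun b' => Cell (Dn n (lam l)) b b')).card ≤ M) →
      ∑ l, Real.log ((Y l).card) - k * (ζ * L + Real.log M) ≤ Real.log ((recSum Y).card)

/-- structure theorem for sums of reciprocals of `k` sets, with slack `θ` -/
def NRMix : Prop :=
  ∀ k : ℕ, ∀ ε : ℝ, 0 < ε → ∀ θ : ℝ, 0 < θ → θ ≤ 1 → ∃ (κ : Fin k → ℝ) (C c : ℝ),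
    (∀ l, 0 < κ l ∧ κ l ≤ 1) ∧ 0 < C ∧ 0 < c ∧
    ∀ (N : ℕ) (A : Fin k → Finset ℤ), (∀ l, (A l).Nonempty) → (∀ l, (0 : ℤ) ∉ A l) →
      (∀ l, (A l).card ≤ N) →
      ((recSum A).card : ℝ) < c * (N : ℝ) ^ (-ε) * ∏ l, ((A l).card : ℝ) →
      ∃ l : Fin k, 0 < (l : ℕ) ∧
        (∀ (T : Finset ℕ) (e : ℕ → ℕ) (β : ℕ → ℤ), Pop (θ * κ l) (A l) T e β →
          W1a T e β ≤ C * (W0b (κ l) A l + 1)) ∧
        c * (Real.log N * Real.log (Real.log N)) ≤ W0b (κ l) A l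

end Pool.Agent.Helper88.RT
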