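import Pool.Agent.Helper88.RT.Col

set_option autoImplicit false

/-!
MP_120218_co, project RT (R2): the column lemma given the pasts, and the chain rule over the columns.
-/

open Finset

namespace Pool.Agent.Helper88.RT

open Pool.Agent.Helper15.BP Pool.Agent.Helper84.TR

/-- the conclusion of the column lemma for given constants -/
def ColProp (η σ : ℝ) : Prop :=
  ∀ (Ω Ω' G : Type) [Fintype Ω] [Fintype Ω'] [AddCommGroup G] (w : Ω → ℝ) (w' : Ω' → ℝ)
    (X : Ω → G) (Y : Ω' → G), IsPr w → IsPr w' → mass w' (fun o => Y o ≠ 0) ≤ σ →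
    CE (prodW w w') (fun p => X p.1) (fun p => X p.1 + Y p.2) ≤ η * (Ent w X + Ent w' Y)

section
variable {Ω Ω' : Type} [Fintype Ω] [Fintype Ω']

/-- the column lemma, given the pasts of both variables -/
theorem col_past {η σ : ℝ} (hη : 0 ≤ η) (hσ : 0 < σ) (hcol : ColProp η σ) {G α β : Type}
    [AddCommGroup G] {w : Ω → ℝ} {w' : Ω' → ℝ} (hw : IsPr w) (hw' : IsPr w') (X : Ω → G)
    (Y : Ω' → G) (A : Ω → α) (B : Ω' → β) :
    CE (prodW w w') (fun p => X p.1) (fun p => (X p.1 + Y p.2, (A p.1, B p.2))) ≤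
      (η + mass w' (fun o => Y o ≠ 0) / σ) * CE w X A + η * CE w' Y B := by
  classical
  have hp := hw.prod hw'
  set m : β → ℝ := fun b => mass (cw w' B b) (fun o => Y o ≠ 0) with hm
  set F : α × β → ℝ := fun ab => pr w A ab.1 * pr w' B ab.2 *
    (η * (Ent (cw w A ab.1) X + Ent (cw w' B ab.2) Y) + m ab.2 / σ * Ent (cw w A ab.1) X) with hF
  rw [CE_fib hp (fun p => X p.1) (fun p => X p.1 + Y p.2) (fun p => (A p.1, B p.2))]
  have hFnn : ∀ ab, 0 ≤ F ab := by
    intro ab
    simp only [hF]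
    by_cases ha : pr w A ab.1 = 0
    · rw [ha]; simp
    by_cases hb : pr w' B ab.2 = 0
    · rw [hb]; simp
    have h1 := cw_isPr hw A ab.1 ha
    have h2 := cw_isPr hw' B ab.2 hb
    have h3 := Ent_nonneg h1 X
    have h4 := Ent_nonneg h2 Y
    have h5 : 0 ≤ m ab.2 := mass_nonneg h2 _
    have h6 := pr_nonneg hw A ab.1
    have h7 := pr_nonneg hw' B ab.2
    positivity
  have h1 : ∀ ab ∈ univ.image (fun p : Ω × Ω' => (A p.1, B p.2)),
      pr (prodW w w') (fun p => (A p.1, B p.2)) ab *
        CE (cw (prodW w w') (fun p => (A p.1, B p.2)) ab) (fun p => X p.1)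
          (fun p => X p.1 + Y p.2) ≤ F ab := by
    rintro ⟨a, b⟩ _
    rw [pr_prod, cw_prod]
    simp only [hF]
    by_cases ha : pr w A a = 0
    · rw [ha]; simp
    by_cases hb : pr w' B b = 0
    · rw [hb]; simp
    have g1 := cw_isPr hw A a ha
    have g2 := cw_isPr hw' B b hb
    have g3 := Ent_nonneg g1 X
    have g4 := Ent_nonneg g2 Y
    have g5 : 0 ≤ m b := mass_nonneg g2 _
    apply mul_le_mul_of_nonneg_left _ (mul_nonneg (pr_nonneg hw A a) (pr_nonneg hw' B b))
    by_cases hgood : m b ≤ σ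
    · refine (hcol Ω Ω' G (cw w A a) (cw w' B b) X Y g1 g2 hgood).trans ?_
      have : 0 ≤ m b / σ * Ent (cw w A a) X := by positivity
      linarith
    · push Not at hgood
      refine (CE_le_Ent (g1.prod g2) _ _).trans ?_
      have e1 : Ent (prodW (cw w A a) (cw w' B b)) (fun p => X p.1) = Ent (cw w A a) X :=
        Ent_fst g2 X
      rw [e1]
      have e2 : 1 ≤ m b / σ := by
        rw [le_div_iff₀ hσ]
        linarith
      have e3 : 1 * Ent (cw w A a) X ≤ m b / σ * Ent (cw w A a) X :=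
        mul_le_mul_of_nonneg_right e2 g3
      have e4 : 0 ≤ η * (Ent (cw w A a) X + Ent (cw w' B b) Y) := by positivity
      linarith
  refine (sum_le_sum h1).trans ?_
  have hsub : univ.image (fun p : Ω × Ω' => (A p.1, B p.2)) ⊆
      (univ.image A) ×ˢ (univ.image B) := by
    intro ab hab
    obtain ⟨p, -, rfl⟩ := mem_image.1 hab
    rw [mem_product]
    exact ⟨mem_image_of_mem _ (mem_univ _), mem_image_of_mem _ (mem_univ _)⟩
  refine (sum_le_sum_of_subset_of_nonneg hsub fun ab _ _ => hFnn ab).trans (le_of_eq ?_)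
  rw [sum_product]
  -- the sums
  have sA := sum_pr_one hw A
  have sB := sum_pr_one hw' B
  have eA := Ent_fib hw X A
  have eB := Ent_fib hw' Y B
  have eM := mass_fib hw' (fun o => Y o ≠ 0) B
  have h2 : ∀ a ∈ univ.image A, ∑ b ∈ univ.image B, F (a, b) =
      pr w A a * Ent (cw w A a) X * (η + mass w' (fun o => Y o ≠ 0) / σ) +
        pr w A a * (η * CE w' Y B) := by
    intro a _
    rw [eM, eB]
    simp only [hF]
    have h3 : ∀ b ∈ univ.image B, pr w A a * pr w' B b *
        (η * (Ent (cw w A a) X + Ent (cw w' B b) Y) + m b / σ * Ent (cw w A a) X) =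
        (pr w A a * Ent (cw w A a) X * η) * pr w' B b +
          (pr w A a * Ent (cw w A a) X / σ) * (pr w' B b * m b) +
          (pr w A a * η) * (pr w' B b * Ent (cw w' B b) Y) := by
      intro b _
      field_simp
      ring
    rw [sum_congr rfl h3, sum_add_distrib, sum_add_distrib, ← mul_sum, ← mul_sum, ← mul_sum, sB]
    simp only [hm]
    ring
  rw [sum_congr rfl h2, sum_add_distrib, ← sum_mul, ← sum_mul, sA, ← eA]
  ring

end

section chain
variable {Ω Ω' : Type} [Fintype Ω] [Fintype Ω'] {G : ℕ → Type} [∀ q, AddCommGroup (G q)]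

/-- the columns below `p` -/
def tr (p : ℕ) (X : Ω → ∀ q, G q) (o : Ω) : ∀ q, G q :=
  fun q => if q < p then X o q else 0

omit [Fintype Ω] in
theorem tr_eq_iff (p : ℕ) (X : Ω → ∀ q, G q) (o o' : Ω) :
    tr p X o = tr p X o' ↔ ∀ q, q < p → X o q = X o' q := by
  constructor
  · intro h q hq
    have h1 := congrFun h q
    simpa only [tr, if_pos hq] using h1
  · intro h
    funext q
    by_cases hq : q < p
    · simpa only [tr, if_pos hq] using h q hq
    · simp only [tr, if_neg hq]

omit [Fintype Ω] in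
theorem tr_succ_iff (p : ℕ) (X : Ω → ∀ q, G q) (o o' : Ω) :
    tr (p + 1) X o = tr (p + 1) X o' ↔ X o p = X o' p ∧ tr p X o = tr p X o' := by
  rw [tr_eq_iff, tr_eq_iff]
  constructor
  · intro h
    exact ⟨h p (Nat.lt_succ_self _), fun q hq => h q (Nat.lt_succ_of_lt hq)⟩
  · rintro ⟨h1, h2⟩ q hq
    rcases Nat.lt_succ_iff_lt_or_eq.mp hq with h3 | h3
    · exact h2 q h3
    · subst h3
      exact h1

/-- the chain rule over the columns -/
theorem chain {β : Type} (w : Ω → ℝ) (X : Ω → ∀ q, G q) (g : Ω → β) (p : ℕ) :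
    CE w (tr p X) g = ∑ q ∈ range p, CE w (fun o => X o q) (fun o => (tr q X o, g o)) := by
  induction p with
  | zero =>
    rw [range_zero, sum_empty]
    unfold CE
    rw [sub_eq_zero]
    apply Ent_congr
    intro o o'
    constructor
    · intro h
      exact (Prod.ext_iff.mp h).2
    · intro h
      exact Prod.ext ((tr_eq_iff 0 X o o').mpr fun q hq => absurd hq (Nat.not_lt_zero _)) h
  | succ p ih =>
    rw [sum_range_succ, ← ih, ← CE_chain w (fun o => X o p) (tr p X) g]
    apply CE_congr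
    · intro o o'
      exact Iff.rfl
    · intro o o' _
      rw [tr_succ_iff]
      simp only [Prod.mk.injEq]

/-- the chain rule without condition -/
theorem chain_Ent {w : Ω → ℝ} (hw : IsPr w) (X : Ω → ∀ q, G q) (p : ℕ) :
    ∑ q ∈ range p, CE w (fun o => X o q) (tr q X) = Ent w (tr p X) := by
  have h1 := chain w X (fun _ => ()) p
  have h2 : CE w (tr p X) (fun _ => ()) = Ent w (tr p X) := by
    unfold CE
    rw [Ent_const hw, sub_zero]
    exact Ent_congr fun o o' => by simp
  rw [← h2, h1]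
  apply sum_congr rfl
  intro q _
  apply CE_congr
  · intro o o'
    simp
  · intro o o' _
    exact Iff.rfl

/-- **Decoding of the columns**: all columns of `X` are almost determined by the columns of
`X + Y`, if every column of `Y` is rarely non-zero. -/
theorem dec_cols {η σ κ : ℝ} (hη : 0 ≤ η) (hσ : 0 < σ) (hcol : ColProp η σ) (hκ : κ ≤ η * σ)
    {w : Ω → ℝ} {w' : Ω' → ℝ} (hw : IsPr w) (hw' : IsPr w') (X : Ω → ∀ q, G q)
    (Y : Ω' → ∀ q, G q) (n : ℕ) (hY : ∀ q, q < n → mass w' (fun o => Y o q ≠ 0) ≤ κ) :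
    CE (prodW w w') (fun p => tr n X p.1) (fun p => tr n (fun p : Ω × Ω' => X p.1 + Y p.2) p) ≤
      2 * η * (Ent w (tr n X) + Ent w' (tr n Y)) := by
  have hp := hw.prod hw'
  have h0 := chain (prodW w w') (fun p : Ω × Ω' => X p.1)
    (fun p => tr n (fun p : Ω × Ω' => X p.1 + Y p.2) p) n
  have h0' : CE (prodW w w') (tr n (fun p : Ω × Ω' => X p.1))
      (fun p => tr n (fun p : Ω × Ω' => X p.1 + Y p.2) p) =
      CE (prodW w w') (fun p => tr n X p.1)
        (fun p => tr n (fun p : Ω × Ω' => X p.1 + Y p.2) p) := rfl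
  rw [← h0', h0]
  have h1 : ∀ q ∈ range n, CE (prodW w w') (fun p : Ω × Ω' => X p.1 q)
      (fun p => (tr q (fun p : Ω × Ω' => X p.1) p,
        tr n (fun p : Ω × Ω' => X p.1 + Y p.2) p)) ≤
      2 * η * CE w (fun o => X o q) (tr q X) + η * CE w' (fun o => Y o q) (tr q Y) := by
    intro q hq
    rw [mem_range] at hq
    have h2 : CE (prodW w w') (fun p : Ω × Ω' => X p.1 q)
        (fun p => (tr q (fun p : Ω × Ω' => X p.1) p,
          tr n (fun p : Ω × Ω' => X p.1 + Y p.2) p)) ≤
        CE (prodW w w') (fun p : Ω × Ω' => X p.1 q)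
          (fun p => (X p.1 q + Y p.2 q, (tr q X p.1, tr q Y p.2))) := by
      apply CE_anti hp
      intro o o' h
      obtain ⟨e1, e2⟩ := Prod.ext_iff.mp h
      simp only at e1 e2
      rw [tr_eq_iff] at e1 e2
      refine Prod.ext (e2 q hq) (Prod.ext ?_ ?_)
      · rw [tr_eq_iff]
        exact fun i hi => e1 i hi
      · rw [tr_eq_iff]
        intro i hi
        have e3 : X o.1 i + Y o.2 i = X o'.1 i + Y o'.2 i := e2 i (hi.trans hq)
        have e4 : X o.1 i = X o'.1 i := e1 i hi
        rw [e4] at e3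
        exact add_left_cancel e3
    refine h2.trans ?_
    have h3 := col_past hη hσ hcol hw hw' (fun o => X o q) (fun o => Y o q) (tr q X) (tr q Y)
    refine h3.trans ?_
    have h4 : mass w' (fun o => Y o q ≠ 0) / σ ≤ η := by
      rw [div_le_iff₀ hσ]
      exact (hY q hq).trans hκ
    have h5 := CE_nonneg hw (fun o => X o q) (tr q X)
    have h6 : (η + mass w' (fun o => Y o q ≠ 0) / σ) * CE w (fun o => X o q) (tr q X) ≤
        (2 * η) * CE w (fun o => X o q) (tr q X) := mul_le_mul_of_nonneg_right (by linarith) h5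
    linarith
  refine (sum_le_sum h1).trans ?_
  rw [sum_add_distrib, ← mul_sum, ← mul_sum, chain_Ent hw, chain_Ent hw']
  have h7 := Ent_nonneg hw' (tr n Y)
  have h8 : η * Ent w' (tr n Y) ≤ 2 * η * Ent w' (tr n Y) := by
    apply mul_le_mul_of_nonneg_right _ h7
    linarith
  linarith

end chain

end Pool.Agent.Helper88.RT
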